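import Mathlib
import Pool.Agent.Y293.FA.Stm
import Pool.Agent.Y293.FA.Base

/-!
# The angular energy estimate
-/

namespace Pool.Agent.Y587.FA

open Pool.Agent.Y293.FA MeasureTheory Set Filter Topology
open scoped ENNReal

noncomputable section

/-- The kernel. -/
def kap (a b u : ℝ) : ℝ := kk a a u - 2 * kk a b u + kk b b u

theorem continuous_kk (a b : ℝ) : Continuous (kk a b) := by
  unfold kk; fun_prop

theorem continuous_kap (a b : ℝ) : Continuous (kap a b) :=
  ((continuous_kk a a).sub (continuous_const.mul (continuous_kk a b))).add (continuous_kk b b)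

theorem kk_bound (a b : ℝ) (ha : 0 < a) (hb : 0 < b) (u : ℝ) :
    |kk a b u| ≤ (a * b)⁻¹ * min a b := by
  have h0 : 0 < min a b := lt_min ha hb
  unfold kk
  rw [abs_mul, abs_of_pos (by positivity : 0 < (a * b)⁻¹), abs_of_nonneg (le_max_left _ _)]
  refine mul_le_mul_of_nonneg_left (max_le h0.le (min_le_left _ _)) (by positivity)

theorem kap_bound (a b : ℝ) (ha : 0 < a) (hb : 0 < b) : ∃ M : ℝ, 0 ≤ M ∧ ∀ u, |kap a b u| ≤ M := by
  refine ⟨(a * a)⁻¹ * min a a + 2 * ((a * b)⁻¹ * min a b) + (b * b)⁻¹ * min b b, ?_, fun u => ?_⟩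
  · have h0 : 0 < min a b := lt_min ha hb
    rw [min_self, min_self]
    positivity
  · have h1 := kk_bound a a ha ha u
    have h2 := kk_bound a b ha hb u
    have h3 := kk_bound b b hb hb u
    unfold kap
    rw [abs_le] at *
    constructor <;> linarith [h1.1, h1.2, h2.1, h2.2, h3.1, h3.2]

theorem continuous_pr2 : Continuous fun q : ℝ × ℂ => pr q.1 q.2 := by
  unfold pr
  fun_prop

theorem continuous_pr (θ : ℝ) : Continuous (pr θ) := by
  unfold pr; fun_prop

theorem pr_sub (θ : ℝ) (x y : ℂ) : pr θ (x - y) = pr θ x - pr θ y := by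
  unfold pr; simp only [Complex.sub_re, Complex.sub_im]; ring

theorem integrable_of_bound {α : Type*} [TopologicalSpace α] [MeasurableSpace α] [BorelSpace α]
    [SecondCountableTopology α]
    (ν : Measure α) [IsFiniteMeasure ν] {f : α → ℝ} (hf : Continuous f) {M : ℝ}
    (hM : ∀ x, |f x| ≤ M) : Integrable f ν :=
  Integrable.of_bound (hf.measurable.aestronglyMeasurable) M (Eventually.of_forall hM)

theorem dd_eq (hform : S_FORM) (μ : Measure ℂ) [IsProbabilityMeasure μ] (a b : ℝ) (ha : 0 < a)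
    (hab : a ≤ b) (θ : ℝ) :
    dd a b (μ.map (pr θ)) = ∫ p, kap a b (pr θ (p.1 - p.2)) ∂(μ.prod μ) := by
  have hb : 0 < b := ha.trans_le hab
  obtain ⟨M, -, hM⟩ := kap_bound a b ha hb
  have hm : Measurable (pr θ) := (continuous_pr θ).measurable
  have : IsProbabilityMeasure (μ.map (pr θ)) := Measure.isProbabilityMeasure_map hm.aemeasurable
  have h1 := hform (μ.map (pr θ)) a b ha hab
  have h2 : ∀ x : ℝ, ∫ y, kap a b (x - y) ∂(μ.map (pr θ)) = ∫ y, kap a b (x - pr θ y) ∂μ :=
    fun x => integral_map hm.aemeasurable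
      ((continuous_kap a b).comp (continuous_const.sub continuous_id)).aestronglyMeasurable
  rw [h1]
  change ∫ x, ∫ y, kap a b (x - y) ∂(μ.map (pr θ)) ∂(μ.map (pr θ)) = _
  simp_rw [h2]
  rw [integral_map hm.aemeasurable]
  · rw [integral_prod]
    · simp_rw [pr_sub]
    · refine integrable_of_bound _ ?_ (fun p => hM _)
      exact (continuous_kap a b).comp ((continuous_pr θ).comp (continuous_fst.sub continuous_snd))
  · have : StronglyMeasurable fun q : ℝ × ℂ => kap a b (q.1 - pr θ q.2) :=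
      ((continuous_kap a b).comp
        (continuous_fst.sub ((continuous_pr θ).comp continuous_snd))).stronglyMeasurable
    exact this.integral_prod_right.aestronglyMeasurable

theorem min_le_pow {b r s : ℝ} (hb : 0 < b) (hr : 0 < r) (hs1 : 1 < s) (hs2 : s ≤ 2) :
    min r⁻¹ (b ^ 2 * r⁻¹ ^ 3) ≤ b ^ (s - 1) * r ^ (-s) := by
  rcases le_total r b with h | h
  · refine (min_le_left _ _).trans ?_
    have h1 : r⁻¹ = r ^ (s - 1) * r ^ (-s) := by
      rw [← Real.rpow_add hr, ← Real.rpow_neg_one]; congr 1; ring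
    rw [h1]
    exact mul_le_mul_of_nonneg_right (Real.rpow_le_rpow hr.le h (by linarith))
      (Real.rpow_nonneg hr.le _)
  · refine (min_le_right _ _).trans ?_
    have h1 : b ^ 2 = b ^ (s - 1) * b ^ (3 - s) := by
      rw [← Real.rpow_add hb, ← Real.rpow_natCast]; congr 1; push_cast; ring
    have h2 : r ^ (-s) = r ^ (3 - s) * r⁻¹ ^ 3 := by
      rw [inv_pow, ← Real.rpow_natCast, ← Real.rpow_neg hr.le, ← Real.rpow_add hr]
      congr 1; push_cast; ring
    rw [h1, h2, ← mul_assoc]
    refine mul_le_mul_of_nonneg_right (mul_le_mul_of_nonneg_left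
      (Real.rpow_le_rpow hb.le h (by linarith)) (Real.rpow_nonneg hb.le _)) (by positivity)

theorem energy : S_FORM → S_KER → S_ENERGY := by
  intro hform hker
  obtain ⟨C, hC, hker⟩ := hker
  refine ⟨C, hC, fun μ _ s I hs1 hs2 hI hen a b ha hab => ?_⟩
  have hb : 0 < b := ha.trans_le hab
  obtain ⟨M, -, hM⟩ := kap_bound a b ha hb
  set G : ℝ → ℂ × ℂ → ℝ := fun θ p => kap a b (pr θ (p.1 - p.2)) with hG
  have hGc : Continuous (Function.uncurry G) := by
    have hc : Continuous fun q : ℝ × (ℂ × ℂ) => (q.1, q.2.1 - q.2.2) := by fun_prop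
    exact (continuous_kap a b).comp (continuous_pr2.comp hc)
  have hGi : Integrable (Function.uncurry G)
      ((volume.restrict (Ioc 0 (2 * Real.pi))).prod (μ.prod μ)) :=
    integrable_of_bound _ hGc (fun q => hM _)
  have hF : ∀ θ, dd a b (μ.map (pr θ)) = ∫ p, G θ p ∂(μ.prod μ) := fun θ =>
    dd_eq hform μ a b ha hab θ
  have hFi : Integrable (fun θ => dd a b (μ.map (pr θ)))
      (volume.restrict (Ioc 0 (2 * Real.pi))) := by
    simp_rw [hF]
    exact hGi.integral_prod_left
  rw [← ofReal_integral_eq_lintegral_ofReal hFi (Eventually.of_forall fun θ => dd_nonneg a b _)]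
  have hswap : ∫ θ in Ioc 0 (2 * Real.pi), dd a b (μ.map (pr θ)) =
      ∫ p, (∫ θ in Ioc 0 (2 * Real.pi), G θ p) ∂(μ.prod μ) := by
    simp_rw [hF]
    exact integral_integral_swap hGi
  rw [hswap]
  refine (Real.ofReal_le_enorm _).trans ?_
  refine (enorm_integral_le_lintegral_enorm _).trans ?_
  have hpt : ∀ p : ℂ × ℂ, ‖∫ θ in Ioc 0 (2 * Real.pi), G θ p‖ₑ ≤
      ENNReal.ofReal (C * b ^ (s - 1)) * edist p.1 p.2 ^ (-s) := by
    intro p
    have hpos : 0 < C * b ^ (s - 1) := mul_pos hC (Real.rpow_pos_of_pos hb _)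
    by_cases hp : p.1 = p.2
    · rw [hp, edist_self, ENNReal.zero_rpow_of_neg (by linarith),
        ENNReal.mul_top (by simpa using hpos)]
      exact le_top
    · have hz : p.1 - p.2 ≠ 0 := sub_ne_zero.2 hp
      have hr : 0 < ‖p.1 - p.2‖ := norm_pos_iff.2 hz
      have h1 := hker a b ha hab (p.1 - p.2) hz
      rw [intervalIntegral.integral_of_le (by positivity)] at h1
      have h2 : |∫ θ in Ioc 0 (2 * Real.pi), G θ p| ≤
          (C * b ^ (s - 1)) * ‖p.1 - p.2‖ ^ (-s) := by
        refine h1.trans ?_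
        rw [mul_assoc]
        exact mul_le_mul_of_nonneg_left (min_le_pow hb hr hs1 hs2) hC.le
      rw [← Real.norm_eq_abs] at h2
      rw [← ofReal_norm]
      refine (ENNReal.ofReal_le_ofReal h2).trans (le_of_eq ?_)
      rw [ENNReal.ofReal_mul hpos.le, edist_dist, dist_eq_norm, ENNReal.ofReal_rpow_of_pos hr]
  refine (lintegral_mono hpt).trans ?_
  have hme : Measurable fun p : ℂ × ℂ => edist p.1 p.2 ^ (-s) := measurable_edist.pow_const _
  rw [lintegral_const_mul _ hme, lintegral_prod _ hme.aemeasurable]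
  calc ENNReal.ofReal (C * b ^ (s - 1)) * ∫⁻ x, ∫⁻ y, edist x y ^ (-s) ∂μ ∂μ
      ≤ ENNReal.ofReal (C * b ^ (s - 1)) * ENNReal.ofReal I := by gcongr; exact hen
    _ = ENNReal.ofReal (C * I * b ^ (s - 1)) := by
        rw [← ENNReal.ofReal_mul (by positivity)]; congr 1; ring

end

end Pool.Agent.Y587.FA
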