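import Mathlib
import Pool.Agent.Y293.FA.Stm

/-!
# Counting the linear parts of words of planar similarities
-/

namespace Pool.Agent.Y587.FA

open Pool.Agent.Y293.FA

noncomputable section

/-- The linear part of a word with given exponents. -/
def lp {m : ℕ} (a : Fin m → ℂ) (α β : Fin m → ℕ) : ℂ :=
  ∏ j, (a j ^ α j * (starRingEnd ℂ) (a j) ^ β j)

theorem lp_single {m : ℕ} (a : Fin m → ℂ) (α β : Fin m → ℕ) (i : Fin m) :
    a i * lp a α β = lp a (Function.update α i (α i + 1)) β := by
  unfold lp
  rw [← Finset.mul_prod_erase Finset.univ _ (Finset.mem_univ i),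
    ← Finset.mul_prod_erase Finset.univ
      (fun j => a j ^ Function.update α i (α i + 1) j * (starRingEnd ℂ) (a j) ^ β j)
      (Finset.mem_univ i)]
  have h : ∏ j ∈ Finset.univ.erase i,
      (a j ^ Function.update α i (α i + 1) j * (starRingEnd ℂ) (a j) ^ β j) =
      ∏ j ∈ Finset.univ.erase i, (a j ^ α j * (starRingEnd ℂ) (a j) ^ β j) := by
    refine Finset.prod_congr rfl fun j hj => ?_
    rw [Function.update_of_ne (Finset.ne_of_mem_erase hj)]
  rw [h, Function.update_self]
  ring

theorem lp_conj {m : ℕ} (a : Fin m → ℂ) (α β : Fin m → ℕ) :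
    (starRingEnd ℂ) (lp a α β) = lp a β α := by
  unfold lp
  rw [map_prod]
  refine Finset.prod_congr rfl fun j _ => ?_
  rw [map_mul, map_pow, map_pow, Complex.conj_conj, mul_comm]

theorem word {m : ℕ} (o : Fin m → Bool) (a b : Fin m → ℂ) (w : List (Fin m)) :
    ∃ (p : Bool) (α β : Fin m → ℕ) (t : ℂ), (∀ j, α j ≤ w.length) ∧ (∀ j, β j ≤ w.length) ∧
      ∀ z, w.foldr (fun i x => sm (o i) (a i) (b i) x) z = sm p (lp a α β) t z := by
  induction w with
  | nil => exact ⟨false, 0, 0, 0, fun _ => by simp, fun _ => by simp, fun z => by simp [sm, lp]⟩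
  | cons i w ih =>
    obtain ⟨p, α, β, t, hα, hβ, h⟩ := ih
    by_cases ho : o i = true
    · refine ⟨!p, Function.update β i (β i + 1), α, a i * (starRingEnd ℂ) t + b i,
        fun j => ?_, fun j => ?_, fun z => ?_⟩
      · by_cases hj : j = i
        · subst hj; simpa using hβ j
        · rw [Function.update_of_ne hj]; exact (hβ j).trans (by simp)
      · exact (hα j).trans (by simp)
      · rw [List.foldr_cons, h, ← lp_single, ← lp_conj]
        cases p <;> simp [sm, ho] <;> ring
    · have ho' : o i = false := by simpa using ho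
      refine ⟨p, Function.update α i (α i + 1), β, a i * t + b i,
        fun j => ?_, fun j => ?_, fun z => ?_⟩
      · by_cases hj : j = i
        · subst hj; simpa using hα j
        · rw [Function.update_of_ne hj]; exact (hα j).trans (by simp)
      · exact (hβ j).trans (by simp)
      · rw [List.foldr_cons, h, ← lp_single]
        cases p <;> simp [sm, ho'] <;> ring

theorem cnt : S_CNT := by
  classical
  intro m o a b n
  refine ⟨(Finset.univ : Finset (Bool × (Fin m → Fin (n + 1)) × (Fin m → Fin (n + 1)))).image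
    fun q => (q.1, lp a (fun j => (q.2.1 j : ℕ)) (fun j => (q.2.2 j : ℕ))), ?_, ?_⟩
  · refine Finset.card_image_le.trans (le_of_eq ?_)
    rw [Finset.card_univ]
    simp only [Fintype.card_prod, Fintype.card_bool, Fintype.card_fun, Fintype.card_fin]
    ring
  · intro w hw
    obtain ⟨p, α, β, t, hα, hβ, h⟩ := word o a b w
    refine ⟨(p, lp a α β), ?_, t, h⟩
    rw [Finset.mem_image]
    refine ⟨(p, fun j => ⟨α j, by have := hα j; omega⟩, fun j => ⟨β j, by have := hβ j; omega⟩),
      Finset.mem_univ _, rfl⟩

end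

end Pool.Agent.Y587.FA
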