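import Mathlib
import Pool.Agent.Y293.FA.Stm

/-!
# Similarities of the complex plane
-/

namespace Pool.Agent.Y587.FA

open Pool.Agent.Y293.FA

noncomputable section

theorem sim : S_SIM := by
  intro f r hr hf
  have ha : ‖f 1 - f 0‖ = r := by
    rw [← dist_eq_norm, hf, dist_eq_norm]; simp
  have ha0 : f 1 - f 0 ≠ 0 := by
    rw [← norm_pos_iff, ha]; exact hr
  set a := f 1 - f 0 with hadef
  obtain ⟨g, hg⟩ : ∃ g : ℂ → ℂ, ∀ z, f z = a * g z + f 0 :=
    ⟨fun z => (f z - f 0) / a, fun z => by field_simp; ring⟩
  have hgd : ∀ z w, Complex.normSq (g z - g w) = Complex.normSq (z - w) := by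
    intro z w
    have h1 := hf z w
    rw [dist_eq_norm, dist_eq_norm, hg z, hg w] at h1
    have h2 : a * g z + f 0 - (a * g w + f 0) = a * (g z - g w) := by ring
    rw [h2, norm_mul, ha] at h1
    have h3 : ‖g z - g w‖ = ‖z - w‖ := mul_left_cancel₀ hr.ne' h1
    rw [Complex.normSq_eq_norm_sq, Complex.normSq_eq_norm_sq, h3]
  have hg0 : g 0 = 0 := by
    have := hg 0
    have h1 : a * g 0 = 0 := by linear_combination -this
    exact (mul_eq_zero.1 h1).resolve_left ha0
  have hg1 : g 1 = 1 := by
    have := hg 1
    have h1 : a * (g 1 - 1) = 0 := by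
      rw [hadef] at *
      linear_combination -this
    exact sub_eq_zero.1 ((mul_eq_zero.1 h1).resolve_left ha0)
  have hre : ∀ z, (g z).re = z.re := by
    intro z
    have h1 := hgd z 0
    have h2 := hgd z 1
    rw [hg0] at h1
    rw [hg1] at h2
    simp only [Complex.normSq_apply, Complex.sub_re, Complex.sub_im, Complex.zero_re,
      Complex.zero_im, Complex.one_re, Complex.one_im] at h1 h2
    linarith
  have him : ∀ z, (g z).im ^ 2 = z.im ^ 2 := by
    intro z
    have h1 := hgd z 0
    rw [hg0] at h1
    simp only [Complex.normSq_apply, Complex.sub_re, Complex.sub_im, Complex.zero_re,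
      Complex.zero_im, hre] at h1
    linarith
  have hI : (g Complex.I).im = 1 ∨ (g Complex.I).im = -1 := by
    have := him Complex.I
    rw [Complex.I_im, one_pow] at this
    have h : ((g Complex.I).im - 1) * ((g Complex.I).im + 1) = 0 := by linarith
    rcases mul_eq_zero.1 h with h | h
    · left; linarith
    · right; linarith
  rcases hI with hI | hI
  · refine ⟨false, a, f 0, ha, fun z => ?_⟩
    rw [hg z]
    have : g z = z := by
      refine Complex.ext (hre z) ?_
      have h1 := hgd z Complex.I
      have h2 := him z
      simp only [Complex.normSq_apply, Complex.sub_re, Complex.sub_im, Complex.I_re,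
        Complex.I_im, hre, hI] at h1
      linarith
    simp [sm, this]
  · refine ⟨true, a, f 0, ha, fun z => ?_⟩
    rw [hg z]
    have : g z = (starRingEnd ℂ) z := by
      refine Complex.ext (by simp [hre z]) ?_
      have h1 := hgd z Complex.I
      have h2 := him z
      simp only [Complex.normSq_apply, Complex.sub_re, Complex.sub_im, Complex.I_re,
        Complex.I_im, hre, hI] at h1
      rw [Complex.conj_im]
      linarith
    simp [sm, this]

end

end Pool.Agent.Y587.FA
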